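import Pool.Agent.R201.KhMain
import Pool.Agent.R783.Walk

/-!
# Random products of 2 and 3 are almost surely not a Khintchin sequence
-/

set_option autoImplicit false

open MeasureTheory ProbabilityTheory Filter Topology Pool.Agent.R201.Kh

namespace Pool.Agent.Results.MP_47485c_an.NotKhintchin

/-- transversal coordinate -/
def y (p : ℝ) (v : ℕ × ℕ) : ℝ := (v.1 : ℝ) - p * (v.1 + v.2)

lemma S_sum {w : ℕ → ℕ} (hw : ∀ k, w k = 2 ∨ w k = 3) (n : ℕ) : (S w n).1 + (S w n).2 = n := by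
  unfold S
  simp only
  have h : (Finset.range n).filter (fun k => w k = 3) =
      (Finset.range n).filter (fun k => ¬ w k = 2) := by
    refine Finset.filter_congr fun k _ => ?_
    rcases hw k with h | h <;> simp [h]
  rw [h, Finset.card_filter_add_card_filter_not]
  exact Finset.card_range n

lemma y_S {w : ℕ → ℕ} (hw : ∀ k, w k = 2 ∨ w k = 3) (p : ℝ) (n : ℕ) :
    y p (S w n) = Pool.Agent.R783.Walk.Y p w n := by
  have h : (((S w n).1 : ℝ) + (S w n).2) = n := by exact_mod_cast S_sum hw n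
  unfold y
  rw [h]
  rfl

/-- a long strip -/
noncomputable def strip (p D ℓ : ℝ) (s0 L : ℕ) : Finset (ℕ × ℕ) := by
  classical
  exact ((Finset.range (L + 1)) ×ˢ (Finset.range (L + 1))).filter
    fun v => s0 ≤ v.1 + v.2 ∧ v.1 + v.2 ≤ L ∧ |y p v - ℓ| ≤ D

lemma mem_strip {p D ℓ : ℝ} {s0 L : ℕ} {v : ℕ × ℕ} :
    v ∈ strip p D ℓ s0 L ↔ s0 ≤ v.1 + v.2 ∧ v.1 + v.2 ≤ L ∧ |y p v - ℓ| ≤ D := by
  classical
  unfold strip
  rw [Finset.mem_filter, Finset.mem_product, Finset.mem_range, Finset.mem_range]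
  constructor
  · exact fun h => h.2
  · intro h
    exact ⟨⟨by omega, by omega⟩, h⟩

lemma strip_upper {p D : ℝ} (L m : ℕ) (hm : D < m + 1) :
    (strip p D 0 0 L).card ≤ (2 * m + 2) * (L + 1) := by
  classical
  have h1 := Finset.card_le_mul_card_image_of_maps_to (s := strip p D 0 0 L)
    (t := Finset.range (L + 1)) (f := fun v => v.1 + v.2)
    (fun v hv => Finset.mem_range.2 (by have := (mem_strip.1 hv).2.1; omega)) (2 * m + 2) ?_
  · rwa [Finset.card_range] at h1
  · intro s _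
    have h2 : ((strip p D 0 0 L).filter fun v => v.1 + v.2 = s).card ≤
        (Finset.Icc ⌈p * s - D⌉₊ ⌊p * s + D⌋₊).card := by
      refine Finset.card_le_card_of_injOn (fun v => v.1) ?_ ?_
      · intro v hv
        have hv' := Finset.mem_filter.1 (Finset.mem_coe.1 hv)
        have hv2 := (mem_strip.1 hv'.1).2.2
        have hs : ((v.1 : ℝ) + v.2) = s := by exact_mod_cast hv'.2
        rw [sub_zero, y, hs, abs_le] at hv2
        rw [Finset.coe_Icc, Set.mem_Icc]
        constructor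
        · exact Nat.ceil_le.2 (by linarith [hv2.1])
        · exact Nat.le_floor (by linarith [hv2.2])
      · intro v hv v' hv' h
        have hv1 := (Finset.mem_filter.1 (Finset.mem_coe.1 hv)).2
        have hv2 := (Finset.mem_filter.1 (Finset.mem_coe.1 hv')).2
        simp only at h
        ext
        · exact h
        · omega
    refine h2.trans ?_
    rw [Nat.card_Icc]
    by_cases hneg : p * s + D < 0
    · have : ⌊p * s + D⌋₊ = 0 := Nat.floor_of_nonpos hneg.le
      omega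
    · push Not at hneg
      have h3 : (⌊p * s + D⌋₊ : ℝ) ≤ p * s + D := Nat.floor_le hneg
      have h4 : p * s - D ≤ ⌈p * s - D⌉₊ := Nat.le_ceil _
      have h5 : (⌊p * s + D⌋₊ : ℝ) < ⌈p * s - D⌉₊ + (2 * m + 2) := by linarith
      have h6 : ⌊p * s + D⌋₊ < ⌈p * s - D⌉₊ + (2 * m + 2) := by exact_mod_cast h5
      omega

lemma strip_lower {p D ℓ : ℝ} (hp0 : 0 < p) (hp1 : p < 1) (s0 L m : ℕ) (hm : (m : ℝ) ≤ D)
    (h1 : |ℓ| + D / 2 ≤ p * s0) (h2 : |ℓ| + D / 2 ≤ (1 - p) * s0) :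
    (L + 1 - s0) * m ≤ (strip p (D / 2) ℓ s0 L).card := by
  classical
  have hcard : (L + 1 - s0) * m = ((Finset.Ico s0 (L + 1)) ×ˢ (Finset.range m)).card := by
    rw [Finset.card_product, Nat.card_Ico, Finset.card_range]
  rw [hcard]
  have key : ∀ z ∈ (Finset.Ico s0 (L + 1)) ×ˢ (Finset.range m),
      p * z.1 + ℓ - D / 2 ≤ (⌈p * z.1 + ℓ - D / 2⌉₊ + z.2 : ℕ) ∧
      ((⌈p * z.1 + ℓ - D / 2⌉₊ + z.2 : ℕ) : ℝ) ≤ p * z.1 + ℓ + D / 2 ∧
      ⌈p * z.1 + ℓ - D / 2⌉₊ + z.2 ≤ z.1 := by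
    rintro ⟨s, k⟩ hz
    rw [Finset.mem_product, Finset.mem_Ico, Finset.mem_range] at hz
    simp only at hz ⊢
    obtain ⟨⟨hs1, hs2⟩, hk⟩ := hz
    have hs1' : (s0 : ℝ) ≤ s := by exact_mod_cast hs1
    have hk' : (k : ℝ) + 1 ≤ m := by exact_mod_cast hk
    have hps : p * s0 ≤ p * s := by gcongr
    have hps' : (1 - p) * s0 ≤ (1 - p) * s := by
      have : 0 ≤ 1 - p := by linarith
      gcongr
    have habs := abs_le.1 (le_refl |ℓ|)
    have hnn : 0 ≤ p * s + ℓ - D / 2 := by linarith [habs.1]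
    have h3 := Nat.ceil_lt_add_one hnn
    have h4 := Nat.le_ceil (p * s + ℓ - D / 2)
    push_cast
    refine ⟨?_, ?_, ?_⟩
    · have : (0 : ℝ) ≤ k := Nat.cast_nonneg k
      linarith
    · linarith
    · have h5 : ((⌈p * s + ℓ - D / 2⌉₊ + k : ℕ) : ℝ) ≤ s := by
        push_cast
        linarith [habs.2]
      exact_mod_cast h5
  refine Finset.card_le_card_of_injOn
    (fun z => (⌈p * z.1 + ℓ - D / 2⌉₊ + z.2, z.1 - (⌈p * z.1 + ℓ - D / 2⌉₊ + z.2))) ?_ ?_
  · intro z hz
    have hz' := Finset.mem_coe.1 hz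
    obtain ⟨k1, k2, k3⟩ := key z hz'
    rw [Finset.mem_product, Finset.mem_Ico, Finset.mem_range] at hz'
    refine Finset.mem_coe.2 (mem_strip.2 ⟨?_, ?_, ?_⟩)
    · simp only
      omega
    · simp only
      omega
    · simp only [y]
      have h3 : ((⌈p * z.1 + ℓ - D / 2⌉₊ + z.2 : ℕ) : ℝ) +
          ((z.1 - (⌈p * z.1 + ℓ - D / 2⌉₊ + z.2) : ℕ) : ℝ) = z.1 := by
        rw [← Nat.cast_add]
        congr 1
        omega
      rw [h3, abs_le]
      constructor <;> linarith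
  · intro z hz z' hz' h
    obtain ⟨_, _, k3⟩ := key z (Finset.mem_coe.1 hz)
    obtain ⟨_, _, k3'⟩ := key z' (Finset.mem_coe.1 hz')
    simp only [Prod.mk.injEq] at h
    obtain ⟨h3, h4⟩ := h
    have h5 : z.1 = z'.1 := by omega
    rw [h5] at h3
    ext
    · exact h5
    · omega

/-- good windows give rich sequences -/
lemma rich_of_windows {w : ℕ → ℕ} (hw : ∀ k, w k = 2 ∨ w k = 3) {p : ℝ} (hp0 : 0 < p)
    (hp1 : p < 1)
    (h : ∀ K T : ℕ, ∃ (D : ℝ) (t : Fin K → ℕ) (ℓ : Fin K → ℝ), 10 ≤ D ∧ (∀ i, T ≤ t i) ∧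
      (∀ i n, t i ≤ n → n ≤ 2 * t i → |Pool.Agent.R783.Walk.Y p w n - ℓ i| ≤ D / 2) ∧
      (∀ i j, i ≠ j → 3 * D ≤ |ℓ i - ℓ j|)) : Rich w := by
  intro K T
  obtain ⟨D, t, ℓ, hD, ht, hwin, hsep⟩ := h K (max T 1)
  -- a common large level
  set R : ℝ := D + ∑ i, (|ℓ i| + 2 * t i) with hR
  have hR0 : ∀ i, D + |ℓ i| + 2 * t i ≤ R := by
    intro i
    have := Finset.single_le_sum (f := fun i => |ℓ i| + 2 * (t i : ℝ))
      (fun i _ => by positivity) (Finset.mem_univ i)
    linarith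
  have hRD : D ≤ R := by
    have : (0 : ℝ) ≤ ∑ i, (|ℓ i| + 2 * (t i : ℝ)) := Finset.sum_nonneg fun i _ => by positivity
    linarith
  have hRpos : 0 < R := by linarith
  obtain ⟨s0, hs0⟩ := exists_nat_ge (R + R / p + R / (1 - p))
  have hp1' : 0 < 1 - p := by linarith
  have hd1 : 0 < R / p := by positivity
  have hd2 : 0 < R / (1 - p) := by positivity
  have hps : R ≤ p * (s0 - R) := by
    have : R / p ≤ s0 - R := by linarith
    rwa [div_le_iff₀ hp0, mul_comm] at this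
  have hps' : R ≤ (1 - p) * (s0 - R) := by
    have : R / (1 - p) ≤ s0 - R := by linarith
    rwa [div_le_iff₀ hp1', mul_comm] at this
  set m : ℕ := ⌊D⌋₊ with hm
  have hm1 : (m : ℝ) ≤ D := Nat.floor_le (by linarith)
  have hm2 : D < m + 1 := Nat.lt_floor_add_one D
  have hm10 : 10 ≤ m := Nat.le_floor (by exact_mod_cast hD)
  refine ⟨strip p D 0 0 (5 * s0), t, fun i => strip p (D / 2) (ℓ i) s0 (5 * s0), ?_, ?_, ?_,
    ?_, ?_⟩
  · refine ⟨(0, 0), mem_strip.2 ⟨by simp, by simp, ?_⟩⟩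
    simp only [y]
    norm_num
    linarith
  · intro i
    have := ht i
    exact ⟨le_trans (le_max_left _ _) this, le_trans (le_max_right _ _) this⟩
  · intro i j hij
    rw [Finset.disjoint_left]
    intro v hv hv'
    have h1 := (mem_strip.1 hv).2.2
    have h2 := (mem_strip.1 hv').2.2
    have h3 := hsep i j hij
    have h4 : |ℓ i - ℓ j| ≤ |y p v - ℓ i| + |y p v - ℓ j| := by
      have := abs_sub_le (ℓ i) (y p v) (ℓ j)
      rwa [abs_sub_comm (ℓ i) (y p v)] at this
    linarith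
  · intro i
    have hup := strip_upper (p := p) (D := D) (5 * s0) m hm2
    have hRi := hR0 i
    have hti : (0 : ℝ) ≤ t i := Nat.cast_nonneg _
    have hlow := strip_lower (p := p) (D := D) (ℓ := ℓ i) hp0 hp1 s0 (5 * s0) m hm1
      (by nlinarith) (by nlinarith)
    refine hup.trans (le_trans ?_ (Nat.mul_le_mul_left 3 hlow))
    have h5 : 5 * s0 + 1 - s0 = 4 * s0 + 1 := by omega
    have hs0pos : 1 ≤ s0 := by
      have : (0 : ℝ) < s0 := by linarith
      exact_mod_cast this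
    rw [h5]
    nlinarith
  · intro i v hv n hn1 hn2
    obtain ⟨hv1, hv2, hv3⟩ := mem_strip.1 hv
    have hYn := hwin i n hn1 hn2
    rw [← y_S hw] at hYn
    have hsum := S_sum hw n
    set a := (S w n).1 with ha
    set b := (S w n).2 with hb
    have hdiff : |y p v - y p (S w n)| ≤ D := by
      have := abs_sub_le (y p v) (ℓ i) (y p (S w n))
      rw [abs_sub_comm (ℓ i) (y p (S w n))] at this
      linarith
    have hdiff' := abs_le.1 hdiff
    have hsum' : ((a : ℝ) + b) = n := by exact_mod_cast hsum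
    have hv1' : (s0 : ℝ) ≤ (v.1 : ℝ) + v.2 := by exact_mod_cast hv1
    have hn2' : (n : ℝ) ≤ 2 * t i := by exact_mod_cast hn2
    have hRi := hR0 i
    have habs : 0 ≤ |ℓ i| := abs_nonneg _
    have hyd : y p v - y p (S w n) = ((v.1 : ℝ) - a) - p * ((v.1 : ℝ) + v.2 - n) := by
      simp only [y, ← ha, ← hb]
      rw [hsum']
      ring
    rw [hyd] at hdiff'
    have hgap : s0 - R ≤ (v.1 : ℝ) + v.2 - n := by linarith
    have hg1 : p * (s0 - R) ≤ p * ((v.1 : ℝ) + v.2 - n) := by gcongr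
    have hg2 : (1 - p) * (s0 - R) ≤ (1 - p) * ((v.1 : ℝ) + v.2 - n) := by gcongr
    have hav : (a : ℝ) ≤ v.1 := by linarith [hdiff'.1]
    have hbv : (b : ℝ) ≤ v.2 := by
      have : (b : ℝ) = n - a := by linarith
      rw [this]
      linarith [hdiff'.2]
    have hav' : a ≤ v.1 := by exact_mod_cast hav
    have hbv' : b ≤ v.2 := by exact_mod_cast hbv
    refine ⟨(v.1 - a, v.2 - b), mem_strip.2 ⟨Nat.zero_le _, ?_, ?_⟩, ?_⟩
    · simp only
      omega
    · have h6 : y p (v.1 - a, v.2 - b) - 0 = y p v - y p (S w n) := by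
        rw [hyd]
        simp only [y]
        rw [Nat.cast_sub hav', Nat.cast_sub hbv', ← hsum']
        ring
      rw [h6]
      exact hdiff
    · ext
      · simp only [Prod.fst_add]
        omega
      · simp only [Prod.snd_add]
        omega

/-- Let `0 < p < 1` and let `ω_1, ω_2, …` (written `ω 0, ω 1, …`) be independent random variables
with `P(ω_n = 2) = p` and `P(ω_n = 3) = 1 - p`. Then almost surely the sequence
`(ω_n ⋯ ω_1)_{n ≥ 1}` is not a Khintchin sequence; it is not even an `L^∞`-Khintchin sequence: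
almost surely there is a measurable set `B` of the circle of measure at most `1/4` such that for
all `x` in a set `V` of measure at least `1/2` the averages `(1/N) ∑_{n=1}^N 1_B(ω_n ⋯ ω_1 x)` are
at least `1/2` for infinitely many `N`. -/
theorem result {Ω : Type*} [MeasurableSpace Ω] (P : Measure Ω) [IsProbabilityMeasure P]
    (p : ℝ) (hp0 : 0 < p) (hp1 : p < 1) (ω : ℕ → Ω → ℕ) (hmeas : ∀ n, Measurable (ω n))
    (hind : iIndepFun ω P) (h2 : ∀ n, P {o | ω n o = 2} = ENNReal.ofReal p)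
    (h3 : ∀ n, P {o | ω n o = 3} = ENNReal.ofReal (1 - p)) :
    ∀ᵐ o ∂P, (¬ IsKhintchin (prodSeq fun k => ω k o)) ∧
      ∃ B V : Set UnitAddCircle, MeasurableSet B ∧ MeasurableSet V ∧
        volume.real B ≤ 1 / 4 ∧ 1 / 2 ≤ volume.real V ∧ ∀ x ∈ V, ∃ᶠ N : ℕ in atTop,
          1 / 2 ≤ (∑ n ∈ Finset.Icc 1 N,
            B.indicator (fun _ => (1 : ℝ)) (prodSeq (fun k => ω k o) n • x)) / N := by
  have hw : ∀ᵐ o ∂P, ∀ k, ω k o = 2 ∨ ω k o = 3 := by
    rw [ae_all_iff]
    intro k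
    have hdisj : Disjoint {o | ω k o = 2} {o | ω k o = 3} := by
      rw [Set.disjoint_left]
      intro o ho ho'
      simp only [Set.mem_ofPred_eq] at ho ho'
      omega
    have hm2 : MeasurableSet {o | ω k o = 2} := hmeas k (measurableSet_singleton 2)
    have hm3 : MeasurableSet {o | ω k o = 3} := hmeas k (measurableSet_singleton 3)
    have hu : P ({o | ω k o = 2} ∪ {o | ω k o = 3}) = 1 := by
      rw [measure_union hdisj hm3, h2, h3, ← ENNReal.ofReal_add hp0.le (by linarith)]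
      simp
    have : P ({o | ω k o = 2} ∪ {o | ω k o = 3})ᶜ = 0 :=
      (prob_compl_eq_zero_iff (hm2.union hm3)).2 hu
    exact this
  filter_upwards [hw, Pool.Agent.R783.Walk.goodWindows P p hp0 hp1 ω hmeas hind h2 h3]
    with o ho hgood
  have hR : Rich fun k => ω k o := rich_of_windows ho hp0 hp1 hgood
  exact ⟨rich_not_khintchin ho hR, rich_bad ho hR⟩

end Pool.Agent.Results.MP_47485c_an.NotKhintchin
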